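import Pool.Agent.Helper32.Piv.Pivot

/-!
# PD-15a: the generic flip
-/

set_option autoImplicit false
set_option linter.deprecated false

namespace Pool.Agent.Helper32.PD

open Finset
open scoped Classical

variable {V : Type}

open Pool.Agent.Helper32.Piv in
theorem exists_flip (G : SimpleGraph V) (side : V → Bool) (W : Finset V) (z u : V)
    (hz : side z = true) (hu : side u = false) (hzu : G.Adj z u)
    (hzW : ∀ w ∈ W, w ≠ z ∧ (G.Adj z w ↔ side w = false))
    (huW : ∀ w ∈ W, w ≠ u ∧ (G.Adj u w ↔ side w = true)) :
    ∃ G' : SimpleGraph V, PivotReach G G' ∧ ∀ x ∈ W, ∀ y ∈ W,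
      (G'.Adj x y ↔ (if side x = side y then G.Adj x y else ¬ G.Adj x y)) := by
  refine ⟨pivotG G z u, Relation.ReflTransGen.single (pivotG_step G z u hzu), ?_⟩
  intro x hx y hy
  have h := adjM_pivotG G z u x y (hzW x hx).1 (huW x hx).1 (hzW y hy).1 (huW y hy).1
  have e1 : adjM G x z = if side x = false then 1 else 0 := by
    rw [adjM_comm]
    unfold adjM
    simp only [(hzW x hx).2]
  have e2 : adjM G x u = if side x = true then 1 else 0 := by
    rw [adjM_comm]
    unfold adjM
    simp only [(huW x hx).2]
  have e3 : adjM G z y = if side y = false then 1 else 0 := by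
    unfold adjM
    simp only [(hzW y hy).2]
  have e4 : adjM G u y = if side y = true then 1 else 0 := by
    unfold adjM
    simp only [(huW y hy).2]
  rw [e1, e2, e3, e4] at h
  rw [← adjM_eq_one, h]
  rcases hsx : side x with _ | _ <;> rcases hsy : side y with _ | _
  · simp [adjM_eq_one]
  · by_cases hxy : G.Adj x y
    · simp [adjM, hxy]
    · simp [adjM, hxy]
  · by_cases hxy : G.Adj x y
    · simp [adjM, hxy]
    · simp [adjM, hxy]
  · simp [adjM_eq_one]

end Pool.Agent.Helper32.PD
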