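import Pool.Agent.Helper15.PM.Pivot

/-!
# The two worlds: a sparse pair and a near-clique

`clique_pivots`: if `G` is the complement of `F` on `S` and `U ⊆ S` is an `F`-independent set of even
size, then pivoting at the pairs of `U` gives a graph `G'` with
`G' = F + ∑ F(u,·)F(u,·) + (1 + n)(1 + n)`, `n x` the number of `F`-neighbours of `x` in `U`.
`exists_rows`: if `U = {u_r}` consists of one end of each edge `{r, u_r}` of an induced matching of
`F`, the other ends become independent rows with the entries `F(r,y) + F(u_r,y)`.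
-/

set_option autoImplicit false
set_option linter.deprecated false

namespace Pool.Agent.Helper29.PD

open Finset
open scoped Classical
open Pool.Agent.Helper35.PM (PivotStep pivot_exists)

variable {V : Type}

/-- Adjacency as an element of `ZMod 2`. -/
noncomputable def av (G : SimpleGraph V) (x y : V) : ZMod 2 := if G.Adj x y then 1 else 0

theorem av_comm (G : SimpleGraph V) (x y : V) : av G x y = av G y x := by
  simp [av, G.adj_comm x y]

theorem av_eq_one {G : SimpleGraph V} {x y : V} : av G x y = 1 ↔ G.Adj x y := by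
  by_cases h : G.Adj x y <;> simp [av, h]

theorem av_eq_zero {G : SimpleGraph V} {x y : V} : av G x y = 0 ↔ ¬ G.Adj x y := by
  by_cases h : G.Adj x y <;> simp [av, h]

theorem pivot_av (A : SimpleGraph V) (u v : V) (h : A.Adj u v) :
    ∃ B : SimpleGraph V, PivotStep A B ∧ ∀ x y, x ≠ u → x ≠ v → y ≠ u → y ≠ v →
      av B x y = av A x y + av A u x * av A v y + av A v x * av A u y := by
  obtain ⟨B, hB, h1⟩ := pivot_exists A u v h
  refine ⟨B, hB, fun x y hxu hxv hyu hyv => ?_⟩
  have h2 := h1 x y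
  simp only [ne_eq, hxu, hxv, hyu, hyv, not_false_eq_true, true_and] at h2
  unfold av
  by_cases a : A.Adj x y <;> by_cases p : A.Adj u x <;> by_cases q : A.Adj v x <;>
    by_cases p' : A.Adj u y <;> by_cases q' : A.Adj v y <;>
    simp [Xor', h2, a, p, q, p', q'] <;> rfl

theorem clique_pivots (G F : SimpleGraph V) (S : Finset V)
    (hG : ∀ x ∈ S, ∀ y ∈ S, x ≠ y → (G.Adj x y ↔ ¬ F.Adj x y)) (m : ℕ) :
    ∀ U : Finset V, U.card = 2 * m → U ⊆ S → (∀ x ∈ U, ∀ y ∈ U, ¬ F.Adj x y) →
      ∃ G' : SimpleGraph V, Relation.ReflTransGen PivotStep G G' ∧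
        ∀ x ∈ S, x ∉ U → ∀ y ∈ S, y ∉ U → x ≠ y →
          av G' x y = av F x y + ∑ u ∈ U, av F u x * av F u y +
            (1 + ∑ u ∈ U, av F u x) * (1 + ∑ u ∈ U, av F u y) := by
  induction m with
  | zero =>
    intro U hU _ _
    have hU0 : U = ∅ := by
      apply card_eq_zero.1
      omega
    subst hU0
    refine ⟨G, Relation.ReflTransGen.refl, fun x hx _ y hy _ hxy => ?_⟩
    simp only [sum_empty, add_zero, mul_one]
    have h := hG x hx y hy hxy
    by_cases hF : F.Adj x y
    · have h1 : ¬ G.Adj x y := fun h2 => (h.1 h2) hF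
      simp only [av, hF, h1, if_true, if_false]
      rfl
    · have h1 : G.Adj x y := h.2 hF
      simp [av, hF, h1]
  | succ m ih =>
    intro U hU hUS hF
    obtain ⟨u, hu⟩ : U.Nonempty := by
      apply card_pos.1
      omega
    obtain ⟨u', hu'⟩ : (U.erase u).Nonempty := by
      apply card_pos.1
      rw [card_erase_of_mem hu]
      omega
    set U' := (U.erase u).erase u' with hU'
    have hcard : U'.card = 2 * m := by
      rw [hU', card_erase_of_mem hu', card_erase_of_mem hu]
      omega
    have hu'U : u' ∈ U := mem_of_mem_erase hu'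
    have huu' : u ≠ u' := by
      intro h
      rw [← h] at hu'
      simp at hu'
    have hsub : U' ⊆ U := (erase_subset _ _).trans (erase_subset _ _)
    obtain ⟨G₁, hG₁, h1⟩ := ih U' hcard (hsub.trans hUS)
      (fun x hx y hy => hF x (hsub hx) y (hsub hy))
    have hunot : u ∉ U' := by simp [hU']
    have hu'not : u' ∉ U' := by simp [hU']
    have hins : U = insert u (insert u' U') := by
      rw [hU', insert_erase hu', insert_erase hu]
    have hsumu : ∀ w ∈ U, ∑ v ∈ U', av F v w = 0 := by
      intro w hw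
      apply sum_eq_zero
      intro v hv
      exact av_eq_zero.2 (hF v (hsub hv) w hw)
    have hsumu2 : ∀ w ∈ U, ∀ y, ∑ v ∈ U', av F v w * av F v y = 0 := by
      intro w hw y
      apply sum_eq_zero
      intro v hv
      rw [av_eq_zero.2 (hF v (hsub hv) w hw), zero_mul]
    have hadj : G₁.Adj u u' := by
      apply av_eq_one.1
      rw [h1 u (hUS hu) hunot u' (hUS hu'U) hu'not huu', hsumu u hu, hsumu u' hu'U, hsumu2 u hu,
        av_eq_zero.2 (hF u hu u' hu'U)]
      simp
    have hrow : ∀ w ∈ U, w ∉ U' → ∀ y ∈ S, y ∉ U' → w ≠ y →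
        av G₁ w y = av F w y + (1 + ∑ v ∈ U', av F v y) := by
      intro w hw hwn y hy hyn hwy
      rw [h1 w (hUS hw) hwn y hy hyn hwy, hsumu w hw, hsumu2 w hw]
      ring
    obtain ⟨B, hB, h2⟩ := pivot_av G₁ u u' hadj
    refine ⟨B, hG₁.tail hB, fun x hx hxU y hy hyU hxy => ?_⟩
    have hxU' : x ∉ U' := fun h => hxU (hsub h)
    have hyU' : y ∉ U' := fun h => hyU (hsub h)
    have hxu : x ≠ u := fun h => hxU (h ▸ hu)
    have hxu' : x ≠ u' := fun h => hxU (h ▸ hu'U)
    have hyu : y ≠ u := fun h => hyU (h ▸ hu)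
    have hyu' : y ≠ u' := fun h => hyU (h ▸ hu'U)
    rw [h2 x y hxu hxu' hyu hyu', h1 x hx hxU' y hy hyU' hxy,
      hrow u hu hunot x hx hxU' (Ne.symm hxu), hrow u' hu'U hu'not y hy hyU' (Ne.symm hyu'),
      hrow u' hu'U hu'not x hx hxU' (Ne.symm hxu'), hrow u hu hunot y hy hyU' (Ne.symm hyu)]
    rw [hins, sum_insert (by simp [huu', hunot]), sum_insert hu'not,
      sum_insert (by simp [huu', hunot]), sum_insert hu'not,
      sum_insert (by simp [huu', hunot]), sum_insert hu'not]
    have h2z : (2 : ZMod 2) = 0 := rfl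
    linear_combination ((1 + ∑ v ∈ U', av F v x) * (1 + ∑ v ∈ U', av F v y)
      - av F u x * av F u y - av F u' x * av F u' y) * h2z

/-- One end `u i` of each edge `{r i, u i}` of an induced matching of `F` is contracted. -/
theorem exists_rows (G F : SimpleGraph V) (S : Finset V)
    (hG : ∀ x ∈ S, ∀ y ∈ S, x ≠ y → (G.Adj x y ↔ ¬ F.Adj x y)) {ι : Type} [Fintype ι]
    (hι : Even (Fintype.card ι)) (r u : ι → V) (hr : ∀ i, r i ∈ S) (hu : ∀ i, u i ∈ S)
    (hru : ∀ i j, F.Adj (r i) (u j) ↔ i = j) (hrr : ∀ i j, ¬ F.Adj (r i) (r j))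
    (huu : ∀ i j, ¬ F.Adj (u i) (u j)) :
    ∃ G' : SimpleGraph V, Relation.ReflTransGen PivotStep G G' ∧
      (∀ i j, ¬ G'.Adj (r i) (r j)) ∧
      ∀ i, ∀ y ∈ S, (∀ j, y ≠ u j) → y ≠ r i →
        av G' (r i) y = av F (r i) y + av F (u i) y := by
  have hui : Function.Injective u := by
    intro i j h
    exact (hru i j).1 (h ▸ (hru i i).2 rfl)
  have hne : ∀ i j, r i ≠ u j := by
    intro i j h
    by_cases hij : i = j
    · subst hij
      have := (hru i i).2 rfl
      rw [h] at this
      exact F.loopless.irrefl _ this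
    · exact huu j i (h ▸ (hru i i).2 rfl)
  obtain ⟨m, hm⟩ := hι
  obtain ⟨G', hG', h1⟩ := clique_pivots G F S hG m (univ.image u)
    (by rw [card_image_of_injective _ hui, card_univ]; omega)
    (by
      intro x hx
      obtain ⟨i, -, rfl⟩ := mem_image.1 hx
      exact hu i)
    (by
      intro x hx y hy
      obtain ⟨i, -, rfl⟩ := mem_image.1 hx
      obtain ⟨j, -, rfl⟩ := mem_image.1 hy
      exact huu i j)
  have hnU : ∀ y, (∀ j, y ≠ u j) → y ∉ univ.image u := by
    intro y hy h
    obtain ⟨i, -, h2⟩ := mem_image.1 h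
    exact hy i h2.symm
  have hkey : ∀ i, ∀ y ∈ S, (∀ j, y ≠ u j) → y ≠ r i →
        av G' (r i) y = av F (r i) y + av F (u i) y := by
    intro i y hy hyu hyr
    rw [h1 (r i) (hr i) (hnU _ (hne i)) y hy (hnU _ hyu) (Ne.symm hyr)]
    rw [sum_image (fun a _ b _ h => hui h), sum_image (fun a _ b _ h => hui h),
      sum_image (fun a _ b _ h => hui h)]
    have h2 : ∀ j, av F (u j) (r i) = if j = i then 1 else 0 := by
      intro j
      by_cases h : j = i
      · rw [if_pos h]
        exact av_eq_one.2 ((hru i j).2 h.symm).symm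
      · rw [if_neg h]
        exact av_eq_zero.2 (fun h3 => h ((hru i j).1 h3.symm).symm)
    simp only [h2, ite_mul, one_mul, zero_mul, sum_ite_eq', mem_univ, if_true]
    have h3 : (1 + 1 : ZMod 2) = 0 := rfl
    rw [h3]
    ring
  refine ⟨G', hG', fun i j => ?_, hkey⟩
  by_cases hij : r i = r j
  · rw [hij]
    exact G'.loopless.irrefl _
  · apply av_eq_zero.1
    have hij' : i ≠ j := fun h => hij (h ▸ rfl)
    rw [hkey i (r j) (hr j) (hne j) (Ne.symm hij), av_eq_zero.2 (hrr i j), zero_add]
    exact av_eq_zero.2 (fun h => hij' ((hru j i).1 h.symm).symm)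

end Pool.Agent.Helper29.PD
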